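import Pool.Agent.Lib.MP_a430e8_ag.MHall
import Pool.Agent.Lib.MP_a430e8_ag.MSurf
import Pool.Agent.Lib.MP_a430e8_ag.MGen
import Pool.Agent.Lib.MP_a430e8_ag.NCut
import Pool.Agent.Lib.MP_a430e8_ag.NPick
import Pool.Agent.Lib.MP_a430e8_ag.NUniv
import Pool.Agent.Lib.MP_a430e8_ag.NMix
import Pool.Agent.Lib.MP_a430e8_ag.NCount
import Pool.Agent.Lib.MP_a430e8_ag.NBig
import Pool.Agent.Lib.MP_a430e8_ag.NLarge

/-! Any number of fat points of arbitrary multiplicities on a general surface of degree `d`,
curves of large degree `e < d`. -/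

namespace Pool.Agent.Results.MP_a430e8_ag.LargeDegree
open Pool.Agent.Lib.MP_a430e8_ag

theorem result (d e r : ℕ) (he : 10 ^ 20 ≤ e) (hed : e < d) (m : Fin r → ℕ) :
    GeneralForm d fun f => GeneralPoints f r fun q =>
      Module.finrank ℂ (multiSeries f q e m) = (e + 3).choose 3 - ∑ i, (m i + 1).choose 2 :=
  large_of (lemmaU init (game stage_hall)) univP confG
    (largeP cut (countP cut pick) (shave cut pick) big) surf gen d e r hed he m

end Pool.Agent.Results.MP_a430e8_ag.LargeDegree
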