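import Pool.Agent.Lib.MP_a430e8_ag.MComp
import Pool.Agent.Lib.MP_a430e8_ag.MHall
import Pool.Agent.Lib.MP_a430e8_ag.MInit
import Pool.Agent.Lib.MP_a430e8_ag.MMix
import Pool.Agent.Lib.MP_a430e8_ag.MCover
import Pool.Agent.Lib.MP_a430e8_ag.MSurf
import Pool.Agent.Lib.MP_a430e8_ag.MGen

/-! Any number of fat points of large multiplicity on a general surface of degree `d`, curves of
degree `e < d`. -/

namespace Pool.Agent.Results.MP_a430e8_ag.ManyPoints
open Pool.Agent.Lib.MP_a430e8_ag

theorem result (d e r : ℕ) (hed : e < d) (m : Fin r → ℕ)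
    (hm : ∀ i, m i ≤ 1 ∨ 2000 ≤ m i ∨ 4 * e < m i) :
    GeneralForm d fun f => GeneralPoints f r fun q =>
      Module.finrank ℂ (multiSeries f q e m) = (e + 3).choose 3 - ∑ i, (m i + 1).choose 2 :=
  multi_of (config (lemmaU init (game stage_hall)) line base) surf gen d e r hed m hm

end Pool.Agent.Results.MP_a430e8_ag.ManyPoints
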