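import Pool.Agent.Lib.MP_a430e8_ag.RMain

/-! About a square multiple of the degree of fat points of two consecutive multiplicities on a
general surface, curves of every degree. -/

namespace Pool.Agent.Results.MP_a430e8_ag.NearUniform
open Pool.Agent.Lib.MP_a430e8_ag

theorem result (d a t m e : ℕ) (μ : Fin (a ^ 2 * d + 2 * t) → ℕ) (hd : 4 ≤ d) (ha : 1 ≤ a)
    (hμ : ∀ i, μ i = m ∨ μ i + 1 = m)
    (ht : 2 * m * t ≤ a * d * (a + 4 - d)) (hs : (∃ i, μ i ≠ m) → 2 * m * t < a * d * (a + 4 - d))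
    (hm : a + 4 < d → a * d * (a + d) ≤ m) :
    GeneralForm d fun f => GeneralPoints f (a ^ 2 * d + 2 * t) fun q =>
      Module.finrank ℂ (multiSeries f q e μ) = (e + 3 - d).choose 3 +
        ((e + 3).choose 3 - (e + 3 - d).choose 3 - ∑ i, (μ i + 1).choose 2) := by
  revert μ
  rw [show a ^ 2 * d = a * d * a by ring]
  intro μ hμ hs
  by_cases h0 : ∃ i, μ i ≠ m
  · obtain ⟨i, hi⟩ := id h0
    obtain ⟨n, rfl⟩ : ∃ n, m = n + 1 := ⟨μ i, ((hμ i).resolve_left hi).symm⟩
    exact Q.mixed ha hd (hs h0) μ fun i hi => Nat.succ.inj ((hμ i).resolve_left hi)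
  obtain rfl : μ = fun _ => m := funext fun i => not_not.1 fun h => h0 ⟨i, h⟩
  rw [Finset.sum_const, Finset.card_univ, Fintype.card_fin, smul_eq_mul]
  refine Q.of_rk (by omega) ?_
  rcases le_or_gt d (a + 4) with h | h
  · exact Q.rk_cmp ha (by omega) (Q.cmp_one ha hd h ht)
  · have h1 : 0 < a * d * (a + d) := by positivity
    have h2 := hm h
    rw [Nat.sub_eq_zero_of_le h.le, mul_zero, Nat.le_zero, mul_eq_zero] at ht
    obtain rfl : t = 0 := by omega
    exact Q.rk_two ha hd h2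

end Pool.Agent.Results.MP_a430e8_ag.NearUniform
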