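import Pool.Agent.Lib.MP_a430e8_ag.Main

/-! One fat point on a general surface of degree `d`, curves of degree `e < d`. -/

namespace Pool.Agent.Results.MP_a430e8_ag.OnePoint
open Pool.Agent.Lib.MP_a430e8_ag

theorem result (d e m : ℕ) (hed : e < d) :
    GeneralForm d fun f => GeneralPoint f fun q =>
      if m = 2 * e ∧ 2 ≤ e ∧ e ≤ 4 then
        ∃ T ∈ series f q 1 2, T ≠ 0 ∧ series f q e m = Submodule.span ℂ {T ^ e}
      else Module.finrank ℂ (series f q e m) = (e + 3).choose 3 - (m + 1).choose 2 :=
  one_point d e m hed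

end Pool.Agent.Results.MP_a430e8_ag.OnePoint
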